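import Mathlib

/-!
# MP_bd2bbd_co: a monotone consistent path system of diameter 2 that is not strictly metric

On `[7]` the diameter-2 path system with résumé
`f(1,7)=5, f(2,4)=1, f(2,5)=3, f(2,7)=6, f(3,4)=7, f(5,6)=4`
is consistent and monotone, but no positive weighting of `K_7` makes all its paths the unique
shortest ones. (Vertices are `Fin 7`, i.e. shifted by one.)
-/

namespace Pool.Agent.Results.MP_bd2bbd_co.SevenPoints

/-- `p` is (the vertex list of) a simple path of the complete graph from `u` to `v`. -/
def IsSimplePath {n : ℕ} (u v : Fin n) (p : List (Fin n)) : Prop :=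
  p.Nodup ∧ p.head? = some u ∧ p.getLast? = some v

/-- A path system on `[n]`: one simple path `P_{u,v} = P_{v,u}` for each pair of distinct
vertices (`path v u` is the reversed vertex list of `path u v`). -/
structure PathSystem (n : ℕ) where
  path : Fin n → Fin n → List (Fin n)
  simple : ∀ u v, u ≠ v → IsSimplePath u v (path u v)
  symm : ∀ u v, u ≠ v → path v u = (path u v).reverse

/-- Whenever `a` lies on `P_{u,v}` (and is not an end), `P_{u,v}` is the concatenation of
`P_{u,a}` and `P_{a,v}`. -/
def Consistent {n : ℕ} (P : PathSystem n) : Prop :=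
  ∀ u v a, u ≠ v → a ∈ P.path u v → a ≠ u → a ≠ v →
    P.path u v = P.path u a ++ (P.path a v).tail

/-- The largest number of edges of a path in the system is `2` (a path with `e` edges has
`e + 1` vertices). -/
def DiameterTwo {n : ℕ} (P : PathSystem n) : Prop :=
  (∀ u v, u ≠ v → (P.path u v).length ≤ 3) ∧ ∃ u v, u ≠ v ∧ (P.path u v).length = 3

/-- Monotonicity of the résumé: if `P_{i,j} = i a j` and `P_{i,k} = i b k` and `j ≤ k`, then
`a ≤ b`. -/
def Monotone {n : ℕ} (P : PathSystem n) : Prop :=
  ∀ i j k a b, i ≠ j → i ≠ k → P.path i j = [i, a, j] → P.path i k = [i, b, k] → j ≤ k → a ≤ b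

/-- The weight of a path: the sum of the weights of its edges. -/
def pathWeight {n : ℕ} (w : Fin n → Fin n → ℝ) : List (Fin n) → ℝ
  | a :: b :: l => w a b + pathWeight w (b :: l)
  | _ => 0

/-- There is a positive weighting `w` of the edges of `K_n` such that every `P_{u,v}` is the
unique `u`-`v` path of minimum weight. -/
def StrictlyMetric {n : ℕ} (P : PathSystem n) : Prop :=
  ∃ w : Fin n → Fin n → ℝ, (∀ u v, w u v = w v u) ∧ (∀ u v, u ≠ v → 0 < w u v) ∧
    ∀ u v, u ≠ v → ∀ q, IsSimplePath u v q → q ≠ P.path u v →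
      pathWeight w (P.path u v) < pathWeight w q

/-- the résumé (as a symmetric function) -/
def res (u v : Fin 7) : Option (Fin 7) :=
  if (u, v) = (0, 6) ∨ (u, v) = (6, 0) then some 4
  else if (u, v) = (1, 3) ∨ (u, v) = (3, 1) then some 0
  else if (u, v) = (1, 4) ∨ (u, v) = (4, 1) then some 2
  else if (u, v) = (1, 6) ∨ (u, v) = (6, 1) then some 5
  else if (u, v) = (2, 3) ∨ (u, v) = (3, 2) then some 6
  else if (u, v) = (4, 5) ∨ (u, v) = (5, 4) then some 3
  else none

def pth (u v : Fin 7) : List (Fin 7) :=
  match res u v with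
  | some z => [u, z, v]
  | none => [u, v]

/-- the path system -/
def P7 : PathSystem 7 where
  path := pth
  simple := by
    intro u v h
    unfold IsSimplePath
    revert u v
    decide
  symm := by decide

theorem consistent : Consistent P7 := by
  unfold Consistent
  show ∀ u v a, u ≠ v → a ∈ pth u v → a ≠ u → a ≠ v → pth u v = pth u a ++ (pth a v).tail
  decide

theorem diam : DiameterTwo P7 := by
  refine ⟨?_, 0, 6, by decide, by decide⟩
  show ∀ u v, u ≠ v → (pth u v).length ≤ 3
  decide

theorem mono : Monotone P7 := by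
  have h : ∀ i j k, i ≠ j → i ≠ k → j ≤ k → ∀ a ∈ res i j, ∀ b ∈ res i k, a ≤ b := by
    decide +kernel
  have h2 : ∀ i j a, pth i j = [i, a, j] → a ∈ res i j := by
    intro i j a hp
    unfold pth at hp
    cases hr : res i j with
    | none => rw [hr] at hp; simp at hp
    | some z => rw [hr] at hp; simp at hp; simp [hp]
  intro i j k a b hij hik hj hk hjk
  exact h i j k hij hik hjk a (h2 i j a hj) b (h2 i k b hk)

theorem notMetric : ¬ StrictlyMetric P7 := by
  rintro ⟨w, hs, _, hw⟩
  have key : ∀ u v z : Fin 7, u ≠ v → IsSimplePath u v [u, z, v] → [u, z, v] ≠ pth u v →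
      pathWeight w (pth u v) < w u z + w z v := by
    intro u v z h1 h2 h3
    have h4 : pathWeight w (pth u v) < pathWeight w [u, z, v] := hw u v h1 [u, z, v] h2 h3
    simpa [pathWeight] using h4
  have sp : ∀ u v z : Fin 7, u ≠ v → u ≠ z → z ≠ v → IsSimplePath u v [u, z, v] := by
    intro u v z h1 h2 h3
    refine ⟨?_, rfl, rfl⟩
    simp [h1, h2, h3]
  have e1 := key 1 4 0 (by decide) (sp _ _ _ (by decide) (by decide) (by decide)) (by decide)
  have e2 := key 1 6 2 (by decide) (sp _ _ _ (by decide) (by decide) (by decide)) (by decide)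
  have e3 := key 2 3 4 (by decide) (sp _ _ _ (by decide) (by decide) (by decide)) (by decide)
  have e4 := key 0 6 3 (by decide) (sp _ _ _ (by decide) (by decide) (by decide)) (by decide)
  have e5 := key 1 3 5 (by decide) (sp _ _ _ (by decide) (by decide) (by decide)) (by decide)
  have e6 := key 4 5 6 (by decide) (sp _ _ _ (by decide) (by decide) (by decide)) (by decide)
  have p1 : pth 1 4 = [1, 2, 4] := by decide
  have p2 : pth 1 6 = [1, 5, 6] := by decide
  have p3 : pth 2 3 = [2, 6, 3] := by decide
  have p4 : pth 0 6 = [0, 4, 6] := by decide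
  have p5 : pth 1 3 = [1, 0, 3] := by decide
  have p6 : pth 4 5 = [4, 3, 5] := by decide
  rw [p1] at e1
  rw [p2] at e2
  rw [p3] at e3
  rw [p4] at e4
  rw [p5] at e5
  rw [p6] at e6
  simp only [pathWeight, add_zero] at e1 e2 e3 e4 e5 e6
  have s1 := hs 2 1
  have s2 := hs 1 0
  have s3 := hs 6 3
  have s4 := hs 4 3
  have s5 := hs 6 2
  have s6 := hs 5 3
  have s7 := hs 6 5
  have s8 := hs 0 4
  have s9 := hs 0 3
  have s10 := hs 4 2
  have s11 := hs 4 6
  have s12 := hs 5 1
  linarith

/-- **Main result.** There is a monotone consistent path system of diameter `2` on `[7]` which is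
not strictly metric; hence the statement of Q1 is false. -/
theorem result :
    (∃ P : PathSystem 7, Consistent P ∧ DiameterTwo P ∧ Monotone P ∧ ¬ StrictlyMetric P) ∧
    ¬ ∀ (n : ℕ) (P : PathSystem n), Consistent P → DiameterTwo P → Monotone P →
      StrictlyMetric P :=
  ⟨⟨P7, consistent, diam, mono, notMetric⟩,
    fun h => notMetric (h 7 P7 consistent diam mono)⟩

end Pool.Agent.Results.MP_bd2bbd_co.SevenPoints
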